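import Pool.Agent.LSG.StmtsF
import Pool.Agent.Helper30_LSG.AB2
import Pool.Agent.Helper18_LSG.AsmE

/-!
# Squad LSN, row FIN: metrizable groups which are not precompact are l-stable
-/

set_option autoImplicit false

open MeasureTheory Set Topology
open scoped BigOperators Pointwise

namespace Pool.Agent.LSN.H23

open Pool.Agent.LSG

theorem fin (h1 : AbnStmt) (h2 : PelStmt) (h3 : CexStmt) (h4 : CpeStmt) (h5 : BriStmt) :
    FinNStmt := by
  intro H _ _ _ _ hU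
  by_cases hs : TopologicalSpace.SeparableSpace H
  · obtain ⟨D0, hc0, hd0⟩ := TopologicalSpace.exists_countable_dense H
    have hne : {κ : Cardinal | ∃ D : Set H, Dense D ∧ Cardinal.mk D = κ}.Nonempty :=
      ⟨_, D0, hd0, rfl⟩
    obtain ⟨D, hD, hDm⟩ := csInf_mem hne
    have hmin : ∀ D' : Set H, Dense D' → Cardinal.mk D ≤ Cardinal.mk D' := fun D' hD' => by
      rw [hDm]
      exact csInf_le' ⟨D', hD', rfl⟩
    have hDc : D.Countable := by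
      rw [← Cardinal.le_aleph0_iff_set_countable]
      exact (hmin D0 hd0).trans (Cardinal.le_aleph0_iff_set_countable.mpr hc0)
    exact LSG.H18.tame_ H D hD hmin (Or.inl hDc) hU
  · have c1 : Compl (ℕ → ↥(Cp H)) ↥(Cp H) := h1 H hs
    have c2 : Compl ↥(Cp H) (ℕ → ↥(Cp H)) := LSG.H30.compl_zero _
    obtain ⟨e2⟩ := (h2 (ℕ → ↥(Cp H)) ↥(Cp H) ⟨LSG.H34.curryE ↥(Cp H)⟩).1 c1 c2
    refine ⟨?_, ?_⟩
    · obtain ⟨e3⟩ := h4.1 (H × ℕ) (Σ _ : ℕ, H) ⟨LSG.H21.homN H⟩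
      obtain ⟨e4⟩ := h4.2.2.1 ℕ (fun _ => H)
      exact (h5.1 H (H × ℕ)).2 ⟨e2.trans (e3.trans e4).symm⟩
    · intro A hA
      have hA1 : LEmc A := (h5.2 _ A).mp hA
      have hA2 : Compl ↥(Cp A) ↥(Cp H) := h3.1 _ A hA1
      obtain ⟨e5⟩ := (h2 ↥(Cp H) ↥(Cp A) ⟨e2⟩).2 hA2
      obtain ⟨e6⟩ := h4.2.1 H A
      exact (h5.1 _ _).mpr ⟨e5.trans e6.symm⟩

end Pool.Agent.LSN.H23
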